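import Pool.Agent.Helper25.CirclesProof

set_option autoImplicit false

namespace Pool.Agent.Results.MP_ab672e_co.TwoLargestCircles

open Pool.Agent.Helper25.Circles

/-- The two circles of radius `√(60125/578)` with centres `(9/34, 9/34)` and `(1/2, 3/34)` are both
MC-circles of `322`; no lattice symmetry carries the first circle onto the second, and no lattice
symmetry carries the first MC-set onto the second. -/
theorem result :
    IsMCCircle 322 !₂[9 / 34, 9 / 34] (Real.sqrt (60125 / 578)) ∧
    IsMCCircle 322 !₂[1 / 2, 3 / 34] (Real.sqrt (60125 / 578)) ∧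
    (∀ g : Plane → Plane, IsLatticeSymmetry g →
      g '' Metric.sphere !₂[9 / 34, 9 / 34] (Real.sqrt (60125 / 578)) ≠
        Metric.sphere !₂[1 / 2, 3 / 34] (Real.sqrt (60125 / 578))) ∧
    (∀ g : Plane → Plane, IsLatticeSymmetry g →
      g '' enclosed !₂[9 / 34, 9 / 34] (Real.sqrt (60125 / 578)) ≠
        enclosed !₂[1 / 2, 3 / 34] (Real.sqrt (60125 / 578))) :=
  main

end Pool.Agent.Results.MP_ab672e_co.TwoLargestCircles
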